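import Pool.Agent.H516R3.Alt.T5

set_option autoImplicit false
set_option linter.all false

noncomputable section

namespace Pool.Agent.Results.MP_4da108_an.AltWeaklyCentral

open Equiv Pool.Agent.H516R3.Alt

/-- A representation of `A` on a nonzero Hilbert space is irreducible if there are no closed
invariant subspaces besides the two trivial ones. -/
def IsIrreducible {A : Type} [CStarAlgebra A] {H : Type} [NormedAddCommGroup H]
    [InnerProductSpace ℂ H] [CompleteSpace H] (π : A →⋆ₐ[ℂ] (H →L[ℂ] H)) : Prop :=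
  Nontrivial H ∧ ∀ K : Submodule ℂ H, IsClosed (K : Set H) →
    (∀ a : A, ∀ x ∈ K, π a x ∈ K) → K = ⊥ ∨ K = ⊤

/-- The primitive ideals of `A` are the kernels of its irreducible representations. -/
def IsPrimitiveIdeal {A : Type} [CStarAlgebra A] (I : Set A) : Prop :=
  ∃ (H : Type) (_ : NormedAddCommGroup H) (_ : InnerProductSpace ℂ H) (_ : CompleteSpace H)
    (π : A →⋆ₐ[ℂ] (H →L[ℂ] H)), IsIrreducible π ∧ I = {a : A | π a = 0}

/-- The unital C*-algebra `A` is central: the map `I ↦ I ∩ Z(A)` is injective on the primitive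
ideals. -/
def IsCentral (A : Type) [CStarAlgebra A] : Prop :=
  ∀ I J : Set A, IsPrimitiveIdeal I → IsPrimitiveIdeal J →
    I ∩ Set.center A = J ∩ Set.center A → I = J

/-- The unital C*-algebra `A` is weakly central: the map `M ↦ M ∩ Z(A)` is injective on the maximal
ideals, and no maximal ideal contains `Z(A)`. -/
def IsWeaklyCentral (A : Type) [CStarAlgebra A] : Prop :=
  (∀ M N : TwoSidedIdeal A, IsCoatom M → IsCoatom N →
    (M : Set A) ∩ Set.center A = (N : Set A) ∩ Set.center A → M = N) ∧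
  ∀ M : TwoSidedIdeal A, IsCoatom M → ¬ (Set.center A ⊆ (M : Set A))

variable {A : Type} [CStarAlgebra A]

lemma eq_top_of_one {M : TwoSidedIdeal A} (h : (1 : A) ∈ M) : M = ⊤ := by
  rw [eq_top_iff]
  intro x _
  have := M.mul_mem_left x 1 h
  rwa [mul_one] at this

lemma one_notMem {M : TwoSidedIdeal A} (h : M ≠ ⊤) : (1 : A) ∉ M := fun h1 => h (eq_top_of_one h1)

lemma swap_fact : swap 0 1 (swap 2 3 0) = 1 := by decide

lemma nontrivial_op : Nontrivial (L2 ℕ →L[ℂ] L2 ℕ) := by
  refine ⟨1, 0, fun h => ?_⟩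
  have := congrArg (fun T : L2 ℕ →L[ℂ] L2 ℕ => T (dl 1) 1) h
  simp only [ContinuousLinearMap.one_apply, ContinuousLinearMap.zero_apply] at this
  rw [dl_self] at this
  exact one_ne_zero this

section main

variable {u : FAlt →* unitary A} (hA : IsFullGroupCStar FAlt A u)
include hA

lemma exists_eps : ∃ ε : A →⋆ₐ[ℂ] ℂ, ∀ g, ε (u g) = 1 := by
  obtain ⟨ε, hε⟩ := hA.univ ℂ 1
  exact ⟨ε, fun g => by rw [hε]; rfl⟩

lemma weaklyCentral : IsWeaklyCentral A := by
  obtain ⟨ε, hε⟩ := exists_eps hA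
  let K : TwoSidedIdeal A := TwoSidedIdeal.ker ε
  have hK : K ≠ ⊤ := by
    intro h
    have h1 : (1 : A) ∈ K := by rw [h]; trivial
    rw [TwoSidedIdeal.mem_ker, map_one] at h1
    exact one_ne_zero h1
  have hle : ∀ M : TwoSidedIdeal A, IsCoatom M → M = K := by
    intro M hM
    have h1 : M ≤ K := by
      intro a ha
      rw [TwoSidedIdeal.mem_ker]
      exact ideal_le ε hε hA.dense M (one_notMem hM.1) a ha
    exact ((hM.le_iff_eq hK).mp h1).symm
  refine ⟨fun M N hM hN _ => (hle M hM).trans (hle N hN).symm, fun M hM hc => ?_⟩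
  exact one_notMem hM.1 (hc Set.one_mem_center)

lemma notCentral : ¬ IsCentral A := by
  intro hc
  obtain ⟨ε, hε⟩ := exists_eps hA
  obtain ⟨π, hπ⟩ := hA.univ (L2 ℕ →L[ℂ] L2 ℕ) (permU.comp FAlt.subtype)
  have hπ' : ∀ g : FAlt, π (u g) = (permU (g : Perm ℕ) : L2 ℕ →L[ℂ] L2 ℕ) := hπ
  let π₀ : A →⋆ₐ[ℂ] (ℂ →L[ℂ] ℂ) := (StarAlgHom.ofId ℂ (ℂ →L[ℂ] ℂ)).comp ε
  have hπ₀ : ∀ a, π₀ a = ε a • 1 := by
    intro a
    change algebraMap ℂ (ℂ →L[ℂ] ℂ) (ε a) = _
    rw [Algebra.algebraMap_eq_smul_one]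
  have hπ₀0 : ∀ a, π₀ a = 0 ↔ ε a = 0 := by
    intro a
    rw [hπ₀]
    constructor
    · intro h
      have := congrArg (fun T : ℂ →L[ℂ] ℂ => T 1) h
      simpa using this
    · intro h
      rw [h]
      exact zero_smul ℂ (1 : ℂ →L[ℂ] ℂ)
  have hIP : IsPrimitiveIdeal {a : A | π a = 0} := by
    refine ⟨L2 ℕ, inferInstance, inferInstance, inferInstance, π, ⟨?_, ?_⟩, rfl⟩
    · refine ⟨dl 0, 0, fun h => ?_⟩
      have := congrArg (fun x : L2 ℕ => x 0) h
      simp only [dl_self] at this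
      exact one_ne_zero this
    · intro K hK hinv
      refine perm_irred K hK fun g x hx => ?_
      rw [← hπ']
      exact hinv _ x hx
  have hJP : IsPrimitiveIdeal {a : A | π₀ a = 0} := by
    refine ⟨ℂ, inferInstance, inferInstance, inferInstance, π₀, ⟨inferInstance, ?_⟩, rfl⟩
    intro K _ _
    exact eq_bot_or_eq_top K
  have hIle : ∀ a, π a = 0 → ε a = 0 := by
    intro a ha
    haveI := nontrivial_op
    refine ideal_le ε hε hA.dense (TwoSidedIdeal.ker π) ?_ a ?_
    · rw [TwoSidedIdeal.mem_ker, map_one]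
      exact one_ne_zero
    · rw [TwoSidedIdeal.mem_ker]; exact ha
  have hIJ := hc _ _ hIP hJP (by
    ext z
    refine and_congr_left fun hz => ?_
    simp only [Set.mem_setOf_eq]
    rw [hπ₀0]
    refine ⟨hIle z, fun h0 => ?_⟩
    obtain ⟨c, hcz⟩ := comm_scalar (π z) (by
      intro g
      rw [← hπ', ← map_mul, ← map_mul, Set.mem_center_iff.mp hz |>.comm])
    have h1 : ε (z - c • 1) = 0 := by
      apply hIle
      rw [map_sub, map_smul, map_one, hcz, sub_self]
    rw [map_sub, h0, map_smul, map_one, smul_eq_mul, mul_one, zero_sub, neg_eq_zero] at h1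
    rw [hcz, h1, zero_smul])
  -- the two ideals differ
  let g : FAlt := s2 0 1 2 3 (by decide) (by decide)
  have h1 : (u g : A) - 1 ∈ {a : A | π₀ a = 0} := by
    change π₀ ((u g : A) - 1) = 0
    rw [hπ₀0, map_sub, hε, map_one, sub_self]
  rw [← hIJ] at h1
  change π ((u g : A) - 1) = 0 at h1
  rw [map_sub, map_one, hπ', sub_eq_zero] at h1
  have h2 := congrArg (fun T : L2 ℕ →L[ℂ] L2 ℕ => T (dl 0) 0) h1
  simp only [ContinuousLinearMap.one_apply] at h2
  rw [permU_dl, dl_self, dl_ne] at h2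
  · exact zero_ne_one h2
  · change 0 ≠ swap 0 1 (swap 2 3 0)
    rw [swap_fact]
    exact zero_ne_one

end main

/-- The full group C*-algebra of the (discrete) group of finitary even permutations of `ℕ` exists,
it is weakly central and it is not central. -/
theorem result :
    (∃ (A : Type) (_ : CStarAlgebra A) (u : FAlt →* unitary A), IsFullGroupCStar FAlt A u) ∧
    ∀ (A : Type) [CStarAlgebra A] (u : FAlt →* unitary A), IsFullGroupCStar FAlt A u →
      IsWeaklyCentral A ∧ ¬ IsCentral A := by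
  refine ⟨⟨Red FAlt, inferInstance, uRed, exists_full KA KA_finite (fun _ _ h => KA_mono h)
    KA_exists⟩, ?_⟩
  intro A _ u hA
  exact ⟨weaklyCentral hA, notCentral hA⟩

end Pool.Agent.Results.MP_4da108_an.AltWeaklyCentral
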